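import Pool.Agent.W133.DQ.StB
import Pool.Agent.GR.Flow

/-!
# DQ-FLOW: complete smooth flows of globally Lipschitz vector fields
-/

set_option autoImplicit false

open Set Filter Topology
open scoped ContDiff

namespace Pool.Agent.W366.DQ

variable {E : Type} [NormedAddCommGroup E] [NormedSpace ℝ E] [CompleteSpace E] {X : E → E}
  {K : NNReal}

/-- solutions on `(-T, T)` for all initial values -/
def Sol (X : E → E) (T : ℝ) : Prop :=
  ∀ x : E, ∃ γ : ℝ → E, γ 0 = x ∧ ∀ t ∈ Ioo (-T) T, HasDerivAt γ (X (γ t)) t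

lemma local_sol (hK : LipschitzWith K X) : ∃ h : ℝ, 0 < h ∧ Sol X h := by
  obtain ⟨h, hh0, hh⟩ : ∃ h : NNReal, 0 < h ∧ 2 * h * K ≤ 1 := by
    refine ⟨(2 * (K + 1))⁻¹, by positivity, ?_⟩
    rw [mul_comm 2, mul_assoc, inv_mul_le_iff₀ (by positivity), mul_one]
    exact mul_le_mul_of_nonneg_left (by simp) (by positivity)
  refine ⟨h, hh0, fun x => ?_⟩
  have h0 : (0:ℝ) ∈ Icc (-(h:ℝ)) h := ⟨by simp, by simp⟩
  obtain ⟨M, hM⟩ : ∃ M : NNReal, (M : ℝ) = ‖X x‖ := ⟨⟨‖X x‖, norm_nonneg _⟩, rfl⟩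
  have hpl : IsPicardLindelof (fun _ => X) (⟨0, h0⟩ : Icc (-(h:ℝ)) h) x
      (2 * h * M) 0 (M + K * (2 * h * M)) K := by
    refine IsPicardLindelof.of_time_independent (fun y hy => ?_) hK.lipschitzOnWith ?_
    · have h1 := hK.dist_le_mul y x
      rw [dist_eq_norm] at h1
      have h2 := norm_add_le (X y - X x) (X x)
      rw [sub_add_cancel] at h2
      rw [Metric.mem_closedBall] at hy
      have h3 : (K : ℝ) * dist y x ≤ K * ((2 * h * M : NNReal) : ℝ) :=
        mul_le_mul_of_nonneg_left hy K.2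
      push_cast at h3 ⊢
      linarith
    · have hh' : 2 * (h : ℝ) * K ≤ 1 := by exact_mod_cast hh
      have hm : max ((h:ℝ) - 0) (0 - -(h:ℝ)) = h := by simp
      simp only [hm]
      push_cast
      have hM0 : 0 ≤ (M : ℝ) := M.2
      have hh1 : 0 ≤ (h : ℝ) := h.2
      have : (h : ℝ) * M * (2 * h * K) ≤ h * M * 1 :=
        mul_le_mul_of_nonneg_left hh' (by positivity)
      simp only [sub_zero]
      nlinarith
  obtain ⟨γ, h1, h2⟩ := hpl.exists_eq_forall_mem_Icc_hasDerivWithinAt₀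
  exact ⟨γ, h1, fun t ht => (h2 t (Ioo_subset_Icc_self ht)).hasDerivAt (Icc_mem_nhds ht.1 ht.2)⟩

omit [CompleteSpace E] in
lemma shift {γ : ℝ → E} {s t : ℝ} (h : HasDerivAt γ (X (γ (t + s))) (t + s)) :
    HasDerivAt (fun t => γ (t + s)) (X (γ (t + s))) t := by
  have := h.scomp t ((hasDerivAt_id t).add_const s)
  simp only [one_smul] at this
  exact this

omit [CompleteSpace E] in
lemma uniq (hK : LipschitzWith K X) {a b t₀ : ℝ} (ht₀ : t₀ ∈ Ioo a b) {γ γ' : ℝ → E}
    (h1 : ∀ t ∈ Ioo a b, HasDerivAt γ (X (γ t)) t) (h2 : ∀ t ∈ Ioo a b, HasDerivAt γ' (X (γ' t)) t)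
    (h : γ t₀ = γ' t₀) : EqOn γ γ' (Ioo a b) :=
  ODE_solution_unique_of_mem_Ioo (v := fun _ => X) (s := fun _ => univ) (K := K) (t₀ := t₀)
    (fun _ _ => hK.lipschitzOnWith) ht₀ (fun t ht => ⟨h1 t ht, trivial⟩)
    (fun t ht => ⟨h2 t ht, trivial⟩) h

omit [CompleteSpace E] in
lemma ext_step (hK : LipschitzWith K X) {T : ℝ} (hT : 0 < T) (h : Sol X T) :
    Sol X (3 / 2 * T) := by
  intro x
  obtain ⟨γ, g0, g⟩ := h x
  obtain ⟨γp, p0, p⟩ := h (γ (T / 2))
  obtain ⟨γm, m0, m⟩ := h (γ (-(T / 2)))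
  -- overlaps
  have op : EqOn γ (fun t => γp (t + -(T / 2))) (Ioo (-(T / 2)) T) := by
    refine uniq hK (t₀ := T / 2) ⟨by linarith, by linarith⟩ (fun t ht => g t ⟨by linarith [ht.1], ht.2⟩)
      (fun t ht => shift (p _ ⟨by linarith [ht.1], by linarith [ht.2]⟩)) ?_
    rw [add_neg_cancel, p0]
  have om : EqOn γ (fun t => γm (t + T / 2)) (Ioo (-T) (T / 2)) := by
    refine uniq hK (t₀ := -(T / 2)) ⟨by linarith, by linarith⟩
      (fun t ht => g t ⟨ht.1, by linarith [ht.2]⟩)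
      (fun t ht => shift (m _ ⟨by linarith [ht.1], by linarith [ht.2]⟩)) ?_
    rw [neg_add_cancel, m0]
  let Γ : ℝ → E := fun t => if t < -(T / 4) then γm (t + T / 2) else
    if T / 4 < t then γp (t + -(T / 2)) else γ t
  have hmid : ∀ t ∈ Ioo (-(T / 2)) (T / 2), Γ t = γ t := by
    intro t ht
    simp only [Γ]
    split_ifs with h1 h2
    · exact (om ⟨by linarith [ht.1], by linarith⟩).symm
    · exact (op ⟨by linarith, by linarith [ht.2]⟩).symm
    · rfl
  have hleft : ∀ t, t < -(T / 4) → Γ t = γm (t + T / 2) := by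
    intro t ht
    simp only [Γ]
    rw [if_pos ht]
  have hright : ∀ t, T / 4 < t → Γ t = γp (t + -(T / 2)) := by
    intro t ht
    simp only [Γ]
    rw [if_neg (by linarith), if_pos ht]
  refine ⟨Γ, ?_, fun t ht => ?_⟩
  · rw [hmid 0 ⟨by linarith, by linarith⟩, g0]
  · rcases lt_or_ge t (-(T / 3)) with h1 | h1
    · have e : Γ =ᶠ[𝓝 t] fun t => γm (t + T / 2) := by
        filter_upwards [Iio_mem_nhds (show t < -(T / 4) by linarith)] with s hs
        exact hleft s hs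
      rw [hleft t (by linarith)]
      exact (shift (m _ ⟨by linarith [ht.1], by linarith⟩)).congr_of_eventuallyEq e
    · rcases lt_or_ge (T / 3) t with h2 | h2
      · have e : Γ =ᶠ[𝓝 t] fun t => γp (t + -(T / 2)) := by
          filter_upwards [Ioi_mem_nhds (show T / 4 < t by linarith)] with s hs
          exact hright s hs
        rw [hright t (by linarith)]
        exact (shift (p _ ⟨by linarith, by linarith [ht.2]⟩)).congr_of_eventuallyEq e
      · have e : Γ =ᶠ[𝓝 t] γ := by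
          filter_upwards [Ioo_mem_nhds (show -(T / 2) < t by linarith)
            (show t < T / 2 by linarith)] with s hs
          exact hmid s hs
        rw [hmid t ⟨by linarith, by linarith⟩]
        exact (g t ⟨by linarith, by linarith⟩).congr_of_eventuallyEq e

lemma sol_all (hK : LipschitzWith K X) (n : ℕ) : Sol X ((n : ℝ) + 1) := by
  obtain ⟨h, h0, hs⟩ := local_sol hK
  have hk : ∀ k : ℕ, Sol X ((3 / 2) ^ k * h) := by
    intro k
    induction k with
    | zero => simpa using hs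
    | succ k ih =>
      have := ext_step hK (by positivity) ih
      rwa [← mul_assoc, ← pow_succ'] at this
  obtain ⟨k, hk1⟩ := pow_unbounded_of_one_lt (((n : ℝ) + 1) / h) (by norm_num : (1 : ℝ) < 3 / 2)
  intro x
  obtain ⟨γ, g0, g⟩ := hk k x
  rw [div_lt_iff₀ h0] at hk1
  exact ⟨γ, g0, fun t ht => g t ⟨by linarith [ht.1], by linarith [ht.2]⟩⟩

lemma exists_sol (hK : LipschitzWith K X) (x : E) :
    ∃ γ : ℝ → E, γ 0 = x ∧ ∀ t, HasDerivAt γ (X (γ t)) t := by
  choose γ h0 h1 using fun n => sol_all hK n x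
  have hun : ∀ n k : ℕ, n ≤ k → EqOn (γ n) (γ k) (Ioo (-((n:ℝ) + 1)) ((n:ℝ) + 1)) := by
    intro n k hnk
    have hnk' : (n:ℝ) ≤ k := by exact_mod_cast hnk
    have hn : (0:ℝ) ≤ n := n.cast_nonneg
    refine uniq hK (t₀ := 0) ⟨by linarith, by linarith⟩ (fun t ht => h1 n t ht)
      (fun t ht => h1 k t ⟨?_, ?_⟩) ?_
    · linarith [ht.1]
    · linarith [ht.2]
    · rw [h0, h0]
  refine ⟨fun t => γ ⌈|t|⌉₊ t, ?_, ?_⟩
  · simp only; rw [h0]
  · intro t
    set N : ℕ := ⌈|t|⌉₊ + 1 with hN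
    have hval : ∀ s : ℝ, |s| < |t| + 1 → γ ⌈|s|⌉₊ s = γ N s := by
      intro s hs
      have h2 : ⌈|s|⌉₊ ≤ N := by
        have h3 : |s| ≤ ((⌈|t|⌉₊ + 1 : ℕ) : ℝ) := by
          push_cast
          linarith [Nat.le_ceil |t|]
        exact Nat.ceil_le.2 h3
      refine hun _ _ h2 ?_
      have h3 := Nat.le_ceil |s|
      exact abs_lt.1 (by linarith : |s| < (⌈|s|⌉₊:ℝ) + 1)
    have h3 : HasDerivAt (γ N) (X (γ N t)) t := by
      apply h1
      have h4 := Nat.le_ceil |t|
      refine abs_lt.1 ?_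
      rw [hN]; push_cast
      linarith
    have h4 : (fun s => γ ⌈|s|⌉₊ s) =ᶠ[𝓝 t] γ N := by
      have : ∀ᶠ s in 𝓝 t, |s| < |t| + 1 :=
        (continuous_abs.tendsto t).eventually (gt_mem_nhds (by linarith))
      exact this.mono hval
    change HasDerivAt _ (X (γ ⌈|t|⌉₊ t)) t
    rw [hval t (by linarith)]
    exact h3.congr_of_eventuallyEq h4

theorem flow : Pool.Agent.W133.DQ.S_FLOW := by
  intro E _ _ _ X hX hKe
  obtain ⟨K, hK⟩ := hKe
  choose g hg0 hg using exists_sol hK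
  have hfl : Pool.Agent.GR.Flow.IsFlowOf X (fun t x => g x t) := ⟨fun x => hg0 x, fun x t => hg x t⟩
  have hadd : ∀ s t x, g x (s + t) = g (g x t) s := fun s t x => hfl.add hK s t x
  let Φ : ℝ → Equiv.Perm E := fun t =>
    { toFun := fun x => g x t
      invFun := fun x => g x (-t)
      left_inv := fun x => by
        show g (g x t) (-t) = x
        rw [← hadd, neg_add_cancel, hg0]
      right_inv := fun x => by
        show g (g x (-t)) t = x
        rw [← hadd, add_neg_cancel, hg0] }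
  have hΦ : ∀ t x, Φ t x = g x t := fun t x => rfl
  refine ⟨Φ, ?_, ?_, ?_, ?_⟩
  · ext x
    exact hg0 x
  · intro s t
    ext x
    rw [Equiv.Perm.mul_apply, hΦ, hΦ, hΦ, hadd]
  · rw [contDiff_infty]
    intro m
    have h1 : ContDiff ℝ ((m + 1 : ℕ) : WithTop ℕ∞) (fun p : ℝ × E => g p.2 p.1) :=
      Pool.Agent.GR.Flow.contDiff_flow (X := ⟨X, hX.continuous⟩) (m := m + 1) (by omega)
        (hX.of_le (by exact_mod_cast le_top)) hK hfl
    exact h1.of_le (by exact_mod_cast Nat.le_succ m)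
  · intro t p
    exact hg p t

end Pool.Agent.W366.DQ
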